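import Pool.Agent.H238.PH.Spec

set_option autoImplicit false

namespace Pool.Agent.H224.PH

open Set Filter Topology

theorem fwd (f f' : ℝ → ℝ) (L : ℝ) (hc : Continuous f) (h0 : ∀ t, 0 ≤ f t)
    (hd : ∀ t, 0 < f t → HasDerivAt f (f' t) t ∧ |f' t| ≤ L * f t)
    (t₀ : ℝ) (ht₀ : 0 < f t₀) (t : ℝ) (ht : t₀ ≤ t) : 0 < f t := by
  by_contra hneg
  have hft : f t = 0 := le_antisymm (not_lt.1 hneg) (h0 t)
  set Z : Set ℝ := Icc t₀ t ∩ f ⁻¹' {0} with hZ
  have hZc : IsCompact Z := isCompact_Icc.inter_right (isClosed_singleton.preimage hc)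
  have hZn : Z.Nonempty := ⟨t, ⟨ht, le_refl t⟩, hft⟩
  obtain ⟨s, hs⟩ := hZc.exists_isLeast hZn
  have hs0 : f s = 0 := hs.1.2
  have hst : t₀ ≤ s := hs.1.1.1
  have hlt : ∀ x, t₀ ≤ x → x < s → 0 < f x := by
    intro x hx hxs
    rcases (h0 x).lt_or_eq with h | h
    · exact h
    · exfalso
      have : x ∈ Z := ⟨⟨hx, hxs.le.trans hs.1.1.2⟩, h.symm⟩
      exact absurd (hs.2 this) (not_le.2 hxs)
  have hmono : MonotoneOn (fun x => f x * Real.exp (L * (x - t₀))) (Icc t₀ s) := by
    have hder : ∀ x, 0 < f x → HasDerivAt (fun x => f x * Real.exp (L * (x - t₀)))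
        (f' x * Real.exp (L * (x - t₀)) + f x * (Real.exp (L * (x - t₀)) * L)) x := by
      intro x hx
      have h1 : HasDerivAt (fun x => Real.exp (L * (x - t₀))) (Real.exp (L * (x - t₀)) * L) x := by
        have h2 : HasDerivAt (fun x : ℝ => L * (x - t₀)) L x := by
          simpa using ((hasDerivAt_id x).sub_const t₀).const_mul L
        exact h2.exp
      exact (hd x hx).1.mul h1
    refine monotoneOn_of_deriv_nonneg (convex_Icc _ _) ?_ ?_ ?_
    · exact (hc.mul (Real.continuous_exp.comp (by fun_prop))).continuousOn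
    · intro x hx
      rw [interior_Icc] at hx
      exact (hder x (hlt x hx.1.le hx.2)).differentiableAt.differentiableWithinAt
    · intro x hx
      rw [interior_Icc] at hx
      have hx' := hlt x hx.1.le hx.2
      rw [(hder x hx').deriv]
      have h3 := (hd x hx').2
      have h4 := neg_abs_le (f' x)
      have h5 := Real.exp_pos (L * (x - t₀))
      nlinarith
  have h6 := hmono ⟨le_refl t₀, hst⟩ ⟨hst, le_refl s⟩ hst
  simp only [sub_self, mul_zero, Real.exp_zero, mul_one, hs0, zero_mul] at h6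
  linarith

theorem t_F : Pool.Agent.H238.PH.S_F := by
  intro f f' L hc h0 hd t₀ ht₀ t
  rcases le_total t₀ t with h | h
  · exact fwd f f' L hc h0 hd t₀ ht₀ t h
  · have := fwd (fun x => f (-x)) (fun x => -f' (-x)) L (hc.comp continuous_neg)
      (fun x => h0 (-x)) (fun x hx => by
        refine ⟨?_, ?_⟩
        · have h1 := (hd (-x) hx).1
          have h2 : HasDerivAt (fun y : ℝ => f (-y)) (f' (-x) * (-1)) x :=
            h1.comp x (hasDerivAt_neg x)
          rwa [mul_neg_one] at h2
        · simpa using (hd (-x) hx).2) (-t₀) (by simpa using ht₀) (-t) (by linarith)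
    simpa using this

end Pool.Agent.H224.PH
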